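import Pool.Agent.H96RS.Ext

open Set Complex

namespace Pool.Agent.H96RS

theorem KN_one (x : ℕ → ℂ) (N : ℕ) : (1 : ℂ) ∈ KN x N := by
  have := cl_rat (S := x '' Set.Iio N) 1
  rw [Rat.cast_one] at this
  exact this

theorem KN_zero (x : ℕ → ℂ) (N : ℕ) : (0 : ℂ) ∈ KN x N := by
  have := cl_rat (S := x '' Set.Iio N) 0
  rw [Rat.cast_zero] at this
  exact this

theorem smul_mem_KN {x : ℕ → ℂ} {N : ℕ} (q : ℚ) {a : ℂ} (h : a ∈ KN x N) : q • a ∈ KN x N := by
  rw [Rat.smul_def]; exact cl_mul (cl_rat _) h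

theorem of_smul_mem_KN {x : ℕ → ℂ} {N : ℕ} {q : ℚ} (hq : q ≠ 0) {a : ℂ} (h : q • a ∈ KN x N) :
    a ∈ KN x N := by
  have := smul_mem_KN q⁻¹ h
  rwa [smul_smul, inv_mul_cancel₀ hq, one_smul] at this

/-- the base: `1` and `ω` -/
theorem base_good {x : ℕ → ℂ} {ω τ : ℂ} (hω : ω ∈ KN x 1) (hω0 : ω ∉ KN x 0)
    (hτ : τ ∈ KN x 1) (hτ0 : τ ∉ KN x 0) :
    ∃ (D : Submodule ℚ ℂ) (A : ℂ →ₗ[ℚ] ℂ), Good x ω τ D A 1 := by
  have hτne : τ ≠ 0 := by
    rintro rfl
    exact hτ0 (KN_zero x 0)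
  have hωne : ω ≠ 0 := by
    rintro rfl
    exact hω0 (KN_zero x 0)
  have h1ω : (1 : ℂ) ∉ Submodule.span ℚ {ω} := by
    intro h
    obtain ⟨q, hq⟩ := Submodule.mem_span_singleton.1 h
    apply hω0
    have hq0 : q ≠ 0 := by rintro rfl; simp at hq
    refine of_smul_mem_KN hq0 ?_
    rw [hq]; exact KN_one x 0
  have hω1 : ω ∉ Submodule.span ℚ {(1 : ℂ)} := by
    intro h
    obtain ⟨q, hq⟩ := Submodule.mem_span_singleton.1 h
    apply hω0
    rw [← hq]
    exact smul_mem_KN q (KN_one x 0)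
  have hωbot : ω ∉ (⊥ : Submodule ℚ ℂ) := by simpa using hωne
  obtain ⟨B, -, hB⟩ := LinearMap.exists_extend_of_notMem
    (0 : (⊥ : Submodule ℚ ℂ) →ₗ[ℚ] ℂ) hωbot (2 * Real.pi * I)
  obtain ⟨A, hA, hA1⟩ := LinearMap.exists_extend_of_notMem
    (B.domRestrict (Submodule.span ℚ {ω})) h1ω (log τ)
  obtain ⟨f, hf, hf1⟩ := LinearMap.exists_extend_of_notMem
    (0 : (Submodule.span ℚ {ω} : Submodule ℚ ℂ) →ₗ[ℚ] ℚ) h1ω 1
  obtain ⟨g, hg, hgω⟩ := LinearMap.exists_extend_of_notMem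
    (0 : (Submodule.span ℚ {(1 : ℂ)} : Submodule ℚ ℂ) →ₗ[ℚ] ℚ) hω1 1
  have hωs : ω ∈ Submodule.span ℚ {ω} := Submodule.mem_span_singleton_self _
  have h1s : (1 : ℂ) ∈ Submodule.span ℚ {(1 : ℂ)} := Submodule.mem_span_singleton_self _
  have hAω : A ω = 2 * Real.pi * I := by
    have := congr($hA ⟨ω, hωs⟩)
    simpa [hB] using this
  have hfω : f ω = 0 := by simpa using congr($hf ⟨ω, hωs⟩)
  have hg1 : g 1 = 0 := by simpa using congr($hg ⟨1, h1s⟩)
  set D : Submodule ℚ ℂ := Submodule.span ℚ {(1 : ℂ)} ⊔ Submodule.span ℚ {ω} with hD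
  have h1D : (1 : ℂ) ∈ D := (le_sup_left : _ ≤ D) h1s
  have hωD : ω ∈ D := (le_sup_right : _ ≤ D) hωs
  have hdec : ∀ a ∈ D, a = f a • (1 : ℂ) + g a • ω := by
    intro a ha
    obtain ⟨b, hb, c, hc, rfl⟩ := Submodule.mem_sup.1 ha
    obtain ⟨q, rfl⟩ := Submodule.mem_span_singleton.1 hb
    obtain ⟨t, rfl⟩ := Submodule.mem_span_singleton.1 hc
    simp only [map_add, map_smul, hf1, hfω, hg1, hgω]
    simp
  have hAa : ∀ a ∈ D, A a = (f a : ℂ) * log τ + (g a : ℂ) * (2 * Real.pi * I) := by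
    intro a ha
    conv_lhs => rw [hdec a ha]
    rw [map_add, map_smul, map_smul, hA1, hAω, Rat.smul_def, Rat.smul_def]
  have hE0 : ∀ a ∈ D, f a ≠ 0 → exp (A a) ∉ KN x 0 := by
    intro a ha hfa hK
    rw [hAa a ha, exp_add] at hK
    apply hτ0
    refine of_exp_rat_mem hfa hτne ?_
    have h2 : exp ((f a : ℂ) * log τ) =
        (exp ((f a : ℂ) * log τ) * exp ((g a : ℂ) * (2 * Real.pi * I))) *
          (exp ((g a : ℂ) * (2 * Real.pi * I)))⁻¹ := by
      rw [mul_assoc, mul_inv_cancel₀ (exp_ne_zero _), mul_one]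
    rw [h2]
    exact cl_mul hK (cl_inv (exp_two_pi_mem _))
  have hfin : Module.finrank ℚ D ≤ 2 := by
    have h1 := Submodule.finrank_add_le_finrank_add_finrank
      (Submodule.span ℚ {(1 : ℂ)}) (Submodule.span ℚ {ω})
    have h2 : Module.finrank ℚ (Submodule.span ℚ {(1 : ℂ)}) = 1 := finrank_span_singleton one_ne_zero
    have h3 : Module.finrank ℚ (Submodule.span ℚ {ω}) = 1 := finrank_span_singleton hωne
    rw [h2, h3] at h1
    exact h1
  refine ⟨D, A, ?_, ?_, h1D, hωD, by rw [hA1, exp_log hτne], hAω, ?_, ?_⟩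
  · intro a ha
    rw [hdec a ha]
    exact cl_add (smul_mem_KN _ (KN_one x 1)) (smul_mem_KN _ hω)
  · intro a ha
    rw [hAa a ha, exp_add]
    exact cl_mul (exp_rat_mem _ hτne hτ) (exp_two_pi_mem _)
  · intro a ha h1
    have hfa : f a = 0 := by
      by_contra hne
      refine hE0 a ha hne ?_
      rw [h1]; exact KN_one x 0
    rw [hAa a ha, exp_eq_one_iff, hfa] at h1
    obtain ⟨k, hk⟩ := h1
    refine ⟨k, ?_⟩
    have h2 : g a = k := by
      have h3 : (2 * (Real.pi : ℂ) * I) ≠ 0 := Complex.two_pi_I_ne_zero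
      have h4 : (g a : ℂ) * (2 * Real.pi * I) = (k : ℂ) * (2 * Real.pi * I) := by
        rw [← hk]; simp
      have h5 := mul_right_cancel₀ h3 h4
      exact_mod_cast h5
    rw [hdec a ha, hfa, h2]; simp
  · intro X hX hXf
    by_cases hbot : X = ⊥
    · subst hbot; simp
    · obtain ⟨a, haX, ha0⟩ := (Submodule.ne_bot_iff X).1 hbot
      have haD := hX haX
      obtain ⟨t, htX, htK⟩ : ∃ t ∈ (X : Set ℂ) ∪ (fun a => exp (A a)) '' (X : Set ℂ),
          t ∉ KN x 0 := by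
        by_cases hfa : f a = 0
        · refine ⟨a, Or.inl haX, fun hK => ?_⟩
          have h1 := hdec a haD
          rw [hfa, zero_smul, zero_add] at h1
          have hga : g a ≠ 0 := by
            intro h0; rw [h0, zero_smul] at h1; exact ha0 h1
          rw [h1] at hK
          exact hω0 (of_smul_mem_KN hga (by simpa [← h1] using hK))
        · exact ⟨_, Or.inr ⟨a, haX, rfl⟩, hE0 a haD hfa⟩
      have hr : (1 : ℕ∞) ≤ Mt.eRk ((X : Set ℂ) ∪ (fun a => exp (A a)) '' (X : Set ℂ)) := by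
        have h1 : Mt.eRk (insert t ∅) = Mt.eRk ∅ + 1 := by
          refine Mt.eRk_insert_eq_add_one ⟨by simp, ?_⟩
          intro h2
          apply htK
          unfold KN
          simpa using h2
        have h2 : Mt.eRk (insert t ∅) ≤ Mt.eRk ((X : Set ℂ) ∪ (fun a => exp (A a)) '' (X : Set ℂ)) :=
          Mt.eRk_mono (by simpa using htX)
        rw [h1, Matroid.eRk_empty, zero_add] at h2
        exact h2
      by_cases hc : (1 : ℂ) ∈ X ∧ ω ∈ X
      · have h1 : Module.finrank ℚ X ≤ 2 := by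
          have hDf : FiniteDimensional ℚ D := by
            rw [hD]; infer_instance
          exact (Submodule.finrank_mono hX).trans hfin
        have h2 : dl ω X = 1 := by unfold dl; rw [if_pos hc]
        rw [h2]
        calc (Module.finrank ℚ X : ℕ∞) ≤ ((2 : ℕ) : ℕ∞) := by exact_mod_cast h1
          _ = 1 + 1 := by norm_num
          _ ≤ _ := by gcongr
      · have h1 : Module.finrank ℚ X ≤ 1 := by
          by_contra h2
          have hDf : FiniteDimensional ℚ D := by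
            rw [hD]; infer_instance
          have : X = D := Submodule.eq_of_le_of_finrank_le hX (by omega)
          exact hc (by rw [this]; exact ⟨h1D, hωD⟩)
        calc (Module.finrank ℚ X : ℕ∞) ≤ ((1 : ℕ) : ℕ∞) := by exact_mod_cast h1
          _ ≤ _ := by simpa using hr
          _ ≤ _ := le_self_add

end Pool.Agent.H96RS
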