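import Mathlib

open Set Complex

namespace Pool.Agent.H96RS

/-- the matroid of algebraic independence over the rationals on the complex numbers -/
noncomputable abbrev Mt : Matroid ℂ := AlgebraicIndependent.matroid ℚ ℂ

theorem mem_cl {S : Set ℂ} {a : ℂ} :
    a ∈ Mt.closure S ↔ IsAlgebraic (Algebra.adjoin ℚ S) a := by
  rw [AlgebraicIndependent.matroid_closure_eq]; rfl

theorem cl_add {S : Set ℂ} {a b : ℂ} (ha : a ∈ Mt.closure S) (hb : b ∈ Mt.closure S) :
    a + b ∈ Mt.closure S := by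
  rw [mem_cl] at *; exact ha.add hb

theorem cl_mul {S : Set ℂ} {a b : ℂ} (ha : a ∈ Mt.closure S) (hb : b ∈ Mt.closure S) :
    a * b ∈ Mt.closure S := by
  rw [mem_cl] at *; exact ha.mul hb

theorem cl_inv {S : Set ℂ} {a : ℂ} (ha : a ∈ Mt.closure S) : a⁻¹ ∈ Mt.closure S := by
  rw [mem_cl] at *; exact ha.inv

theorem cl_alg {S : Set ℂ} {a : ℂ} (ha : IsAlgebraic ℚ a) : a ∈ Mt.closure S := by
  rw [mem_cl]; exact ha.extendScalars (FaithfulSMul.algebraMap_injective _ _)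

theorem cl_rat {S : Set ℂ} (q : ℚ) : (q : ℂ) ∈ Mt.closure S :=
  cl_alg (by simpa using (isAlgebraic_algebraMap (R := ℚ) (A := ℂ) q))

theorem cl_sub {S : Set ℂ} {a b : ℂ} (ha : a ∈ Mt.closure S) (hb : b ∈ Mt.closure S) :
    a - b ∈ Mt.closure S := by
  rw [mem_cl] at *; exact ha.sub hb

theorem cl_root {S : Set ℂ} {a : ℂ} {n : ℕ} (hn : 0 < n) (ha : a ^ n ∈ Mt.closure S) :
    a ∈ Mt.closure S := by
  rw [mem_cl] at *; exact ha.of_pow hn

theorem cl_pow {S : Set ℂ} {a : ℂ} (n : ℕ) (ha : a ∈ Mt.closure S) : a ^ n ∈ Mt.closure S := by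
  rw [mem_cl] at *; exact ha.pow n

theorem cl_zpow {S : Set ℂ} {a : ℂ} (n : ℤ) (ha : a ∈ Mt.closure S) : a ^ n ∈ Mt.closure S := by
  rcases n with n | n
  · simpa using cl_pow n ha
  · rw [zpow_negSucc]; exact cl_inv (cl_pow _ ha)

theorem cl_zroot {S : Set ℂ} {a : ℂ} {n : ℤ} (hn : n ≠ 0) (ha : a ^ n ∈ Mt.closure S) :
    a ∈ Mt.closure S := by
  rcases n with n | n
  · have : 0 < n := by
      rcases Nat.eq_zero_or_pos n with h | h
      · subst h; exact absurd rfl hn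
      · exact h
    exact cl_root this (by simpa using ha)
  · rw [zpow_negSucc] at ha
    have := cl_inv ha
    rw [inv_inv] at this
    exact cl_root (Nat.succ_pos n) this

theorem exp_rat_pow (q : ℚ) {b : ℂ} (hb : b ≠ 0) :
    Complex.exp ((q : ℂ) * Complex.log b) ^ q.den = b ^ q.num := by
  rw [← Complex.exp_nat_mul]
  have h1 : ((q.den : ℕ) : ℂ) * ((q : ℂ) * Complex.log b) = (q.num : ℂ) * Complex.log b := by
    rw [← mul_assoc]
    congr 1
    have : (q.den : ℚ) * q = q.num := by rw [mul_comm]; exact Rat.mul_den_eq_num q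
    exact_mod_cast this
  rw [h1, Complex.exp_int_mul, Complex.exp_log hb]

theorem exp_rat_mem {S : Set ℂ} (q : ℚ) {b : ℂ} (hb : b ≠ 0) (h : b ∈ Mt.closure S) :
    Complex.exp ((q : ℂ) * Complex.log b) ∈ Mt.closure S := by
  refine cl_root q.den_pos ?_
  rw [exp_rat_pow q hb]
  exact cl_zpow _ h

theorem of_exp_rat_mem {S : Set ℂ} {q : ℚ} (hq : q ≠ 0) {b : ℂ} (hb : b ≠ 0)
    (h : Complex.exp ((q : ℂ) * Complex.log b) ∈ Mt.closure S) : b ∈ Mt.closure S := by
  have := cl_pow q.den h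
  rw [exp_rat_pow q hb] at this
  exact cl_zroot (by simpa using hq) this

theorem exp_two_pi_mem {S : Set ℂ} (q : ℚ) :
    Complex.exp ((q : ℂ) * (2 * Real.pi * I)) ∈ Mt.closure S := by
  refine cl_root q.den_pos ?_
  rw [← Complex.exp_nat_mul]
  have h1 : ((q.den : ℕ) : ℂ) * ((q : ℂ) * (2 * Real.pi * I)) = (q.num : ℂ) * (2 * Real.pi * I) := by
    rw [← mul_assoc]
    congr 1
    have : (q.den : ℚ) * q = q.num := by rw [mul_comm]; exact Rat.mul_den_eq_num q
    exact_mod_cast this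
  rw [h1, Complex.exp_int_mul_two_pi_mul_I]
  simpa using cl_rat (S := S) 1

end Pool.Agent.H96RS
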