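import Pool.Agent.H96RS.Cl

open Set Complex

namespace Pool.Agent.H96RS

/-- the algebraic closure of the field generated by the first `N` members of `x` -/
noncomputable def KN (x : ℕ → ℂ) (N : ℕ) : Set ℂ := Mt.closure (x '' Set.Iio N)

/-- `1` when the subspace contains both `1` and `ω`, and `0` otherwise -/
noncomputable def dl (ω : ℂ) (X : Submodule ℚ ℂ) : ℕ∞ :=
  open Classical in if (1 : ℂ) ∈ X ∧ ω ∈ X then 1 else 0

theorem dl_mono {ω : ℂ} {X Y : Submodule ℚ ℂ} (h : X ≤ Y) : dl ω X ≤ dl ω Y := by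
  unfold dl
  by_cases hX : (1 : ℂ) ∈ X ∧ ω ∈ X
  · rw [if_pos hX, if_pos ⟨h hX.1, h hX.2⟩]
  · rw [if_neg hX]; exact zero_le

theorem KN_mono {x : ℕ → ℂ} {M N : ℕ} (h : M ≤ N) : KN x M ⊆ KN x N :=
  Mt.closure_subset_closure (Set.image_mono (Set.Iio_subset_Iio h))

theorem mem_KN_succ (x : ℕ → ℂ) (N : ℕ) : x N ∈ KN x (N + 1) :=
  Mt.mem_closure_of_mem ⟨N, by simp, rfl⟩ (by simp)

theorem notMem_KN {x : ℕ → ℂ} (hx : Function.Injective x) (hI : Mt.Indep (range x)) (N : ℕ) :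
    x N ∉ KN x N := by
  intro h
  refine hI.notMem_closure_sdiff_of_mem (mem_range_self N) (Mt.closure_subset_closure ?_ h)
  rintro _ ⟨i, hi, rfl⟩
  refine ⟨mem_range_self i, ?_⟩
  intro he
  have := hx he
  simp at hi
  omega

/-- a partial exponential map with the Schanuel property up to one -/
structure Good (x : ℕ → ℂ) (ω τ : ℂ) (D : Submodule ℚ ℂ) (A : ℂ →ₗ[ℚ] ℂ) (N : ℕ) : Prop where
  memD : ∀ a ∈ D, a ∈ KN x N
  memE : ∀ a ∈ D, exp (A a) ∈ KN x N
  one_mem : (1 : ℂ) ∈ D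
  om_mem : ω ∈ D
  A1 : exp (A 1) = τ
  Aom : A ω = 2 * Real.pi * I
  ker : ∀ a ∈ D, exp (A a) = 1 → ∃ k : ℤ, a = (k : ℚ) • ω
  sch : ∀ X : Submodule ℚ ℂ, X ≤ D → FiniteDimensional ℚ X →
    (Module.finrank ℚ X : ℕ∞) ≤ Mt.eRk ((X : Set ℂ) ∪ (fun a => exp (A a)) '' X) + dl ω X

theorem finrank_le_inf_ker (X D : Submodule ℚ ℂ) (f : ℂ →ₗ[ℚ] ℚ) [FiniteDimensional ℚ X]
    (h : ∀ a ∈ X, f a = 0 → a ∈ D) :
    Module.finrank ℚ X ≤ Module.finrank ℚ (X ⊓ D : Submodule ℚ ℂ) + 1 := by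
  have h1 := LinearMap.finrank_range_add_finrank_ker (f.domRestrict X)
  have h2 : Module.finrank ℚ (LinearMap.range (f.domRestrict X)) ≤ 1 := by
    have := Submodule.finrank_le (LinearMap.range (f.domRestrict X))
    simpa using this
  have h3 : Module.finrank ℚ (LinearMap.ker (f.domRestrict X)) ≤
      Module.finrank ℚ (X ⊓ D : Submodule ℚ ℂ) := by
    have : FiniteDimensional ℚ (X ⊓ D : Submodule ℚ ℂ) :=
      Submodule.finiteDimensional_of_le inf_le_left
    have h4 : (LinearMap.ker (f.domRestrict X)).map X.subtype ≤ (X ⊓ D : Submodule ℚ ℂ) := by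
      rintro _ ⟨a, ha, rfl⟩
      refine ⟨a.2, h _ a.2 ?_⟩
      simpa using ha
    have h5 := Submodule.finrank_mono h4
    rwa [← (Submodule.equivMapOfInjective X.subtype X.injective_subtype _).finrank_eq] at h5
  omega

/-- one generic step: the new vector `g` gets the value `b` -/
theorem Good.extend {x : ℕ → ℂ} {ω τ : ℂ} {D : Submodule ℚ ℂ} {A : ℂ →ₗ[ℚ] ℂ} {N M : ℕ}
    (h : Good x ω τ D A N) (hM : N ≤ M) {g b : ℂ} (hg : g ∉ D) (hgK : g ∈ KN x (M + 1))
    (hb : b ≠ 0) (hbK : b ∈ KN x (M + 1)) (hbE : ∀ d ∈ D, exp (A d) ≠ b)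
    (hnew : g ∉ KN x M ∨ b ∉ KN x M) :
    ∃ A' : ℂ →ₗ[ℚ] ℂ, Good x ω τ (D ⊔ Submodule.span ℚ {g}) A' (M + 1) ∧
      (∀ a ∈ D, A' a = A a) ∧ exp (A' g) = b := by
  obtain ⟨A', hA', hAg⟩ := LinearMap.exists_extend_of_notMem (A.domRestrict D) hg (log b)
  obtain ⟨f, hf, hfg⟩ := LinearMap.exists_extend_of_notMem (0 : D →ₗ[ℚ] ℚ) hg 1
  have hAD : ∀ a ∈ D, A' a = A a := fun a ha => by
    simpa using congr($hA' ⟨a, ha⟩)
  have hfD : ∀ a ∈ D, f a = 0 := fun a ha => by
    simpa using congr($hf ⟨a, ha⟩)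
  have hKM : ∀ {K L : ℕ}, K ≤ L → ∀ {z : ℂ}, z ∈ KN x K → z ∈ KN x L := fun h _ hz => KN_mono h hz
  have hdec : ∀ a ∈ D ⊔ Submodule.span ℚ {g}, a - f a • g ∈ D := by
    intro a ha
    obtain ⟨d, hd, c, hc, rfl⟩ := Submodule.mem_sup.1 ha
    obtain ⟨q, rfl⟩ := Submodule.mem_span_singleton.1 hc
    have : f (d + q • g) = q := by rw [map_add, map_smul, hfD d hd, hfg]; simp
    rw [this]; simpa using hd
  have hexp : ∀ a ∈ D ⊔ Submodule.span ℚ {g},
      exp (A' a) = exp (A (a - f a • g)) * exp ((f a : ℂ) * log b) := by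
    intro a ha
    rw [← hAD _ (hdec a ha), ← exp_add, map_sub, map_smul, hAg]
    congr 1
    rw [Rat.smul_def]; ring
  have hnewmem : ∀ a ∈ D ⊔ Submodule.span ℚ {g}, f a ≠ 0 → a ∉ KN x M ∨ exp (A' a) ∉ KN x M := by
    intro a ha hfa
    have hd := hdec a ha
    rcases hnew with hn | hn
    · left
      intro haK
      apply hn
      have h1 : g = ((f a)⁻¹ : ℚ) * (a - (a - f a • g)) := by
        rw [Rat.smul_def]
        have : (f a : ℂ) ≠ 0 := by exact_mod_cast hfa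
        push_cast
        field_simp
        ring
      rw [h1]
      exact cl_mul (cl_rat _) (cl_sub haK (hKM hM (h.memD _ hd)))
    · right
      intro haK
      apply hn
      rw [hexp a ha] at haK
      refine of_exp_rat_mem hfa hb ?_
      have h2 : exp ((f a : ℂ) * log b) = (exp (A (a - f a • g)))⁻¹ *
          (exp (A (a - f a • g)) * exp ((f a : ℂ) * log b)) := by
        rw [← mul_assoc, inv_mul_cancel₀ (exp_ne_zero _), one_mul]
      rw [h2]
      exact cl_mul (cl_inv (hKM hM (h.memE _ hd))) haK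
  refine ⟨A', ?_, hAD, by rw [hAg, exp_log hb]⟩
  have hle : D ≤ D ⊔ Submodule.span ℚ {g} := le_sup_left
  refine ⟨?_, ?_, hle h.one_mem, hle h.om_mem, by rw [hAD _ h.one_mem, h.A1],
    by rw [hAD _ h.om_mem, h.Aom], ?_, ?_⟩
  · intro a ha
    have h1 : a = (a - f a • g) + (f a : ℂ) * g := by rw [Rat.smul_def]; ring
    rw [h1]
    exact cl_add (hKM (by omega) (h.memD _ (hdec a ha))) (cl_mul (cl_rat _) hgK)
  · intro a ha
    rw [hexp a ha]
    exact cl_mul (hKM (by omega) (h.memE _ (hdec a ha))) (exp_rat_mem _ hb hbK)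
  · intro a ha h1
    by_cases hfa : f a = 0
    · have hd := hdec a ha
      rw [hfa] at hd
      simp only [zero_smul, sub_zero] at hd
      rw [hAD a hd] at h1
      exact h.ker a hd h1
    · exfalso
      rw [hexp a ha, ← exp_add, exp_eq_one_iff] at h1
      obtain ⟨k, hk⟩ := h1
      refine hbE ((f a)⁻¹ • ((k : ℚ) • ω - (a - f a • g))) ?_ ?_
      · exact D.smul_mem _ (D.sub_mem (D.smul_mem _ h.om_mem) (hdec a ha))
      · rw [map_smul, map_sub (f := A), map_smul, h.Aom]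
        have : ((f a)⁻¹ : ℚ) • (((k : ℚ) • (2 * (Real.pi : ℂ) * I)) - A (a - f a • g)) = log b := by
          rw [Rat.smul_def, Rat.smul_def]
          have h3 : (f a : ℂ) ≠ 0 := by exact_mod_cast hfa
          push_cast
          field_simp
          linear_combination (-1 : ℂ) * hk
        rw [this, exp_log hb]
  · intro X hX hfin
    by_cases hXD : X ≤ D
    · have : (fun a => exp (A' a)) '' (X : Set ℂ) = (fun a => exp (A a)) '' (X : Set ℂ) :=
        Set.image_congr fun a ha => by simp only [hAD a (hXD ha)]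
      rw [this]
      exact h.sch X hXD hfin
    · obtain ⟨a, haX, haD⟩ := SetLike.not_le_iff_exists.1 hXD
      have hfa : f a ≠ 0 := by
        intro h0
        have := hdec a (hX haX)
        rw [h0] at this
        exact haD (by simpa using this)
      have h1 : Module.finrank ℚ X ≤ Module.finrank ℚ (X ⊓ D : Submodule ℚ ℂ) + 1 := by
        refine finrank_le_inf_ker X D f fun c hc h0 => ?_
        have := hdec c (hX hc)
        rw [h0] at this
        simpa using this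
      have hfin2 : FiniteDimensional ℚ (X ⊓ D : Submodule ℚ ℂ) :=
        Submodule.finiteDimensional_of_le inf_le_left
      have h2 := h.sch (X ⊓ D) inf_le_right hfin2
      set S : Set ℂ := ((X ⊓ D : Submodule ℚ ℂ) : Set ℂ) ∪
        (fun a => exp (A a)) '' ((X ⊓ D : Submodule ℚ ℂ) : Set ℂ) with hS
      have hSK : S ⊆ KN x M := by
        rintro c (hc | ⟨d, hd, rfl⟩)
        · exact hKM hM (h.memD _ hc.2)
        · exact hKM hM (h.memE _ hd.2)
      have hST : S ⊆ (X : Set ℂ) ∪ (fun a => exp (A' a)) '' (X : Set ℂ) := by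
        rintro c (hc | ⟨d, hd, rfl⟩)
        · exact Or.inl hc.1
        · exact Or.inr ⟨d, hd.1, by simp only [hAD d hd.2]⟩
      obtain ⟨t, htX, htK⟩ : ∃ t ∈ (X : Set ℂ) ∪ (fun a => exp (A' a)) '' (X : Set ℂ),
          t ∉ KN x M := by
        rcases hnewmem a (hX haX) hfa with h3 | h3
        · exact ⟨a, Or.inl haX, h3⟩
        · exact ⟨_, Or.inr ⟨a, haX, rfl⟩, h3⟩
      have htS : t ∉ Mt.closure S := by
        intro h3
        apply htK
        have := Mt.closure_subset_closure hSK h3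
        unfold KN at this
        rwa [Mt.closure_closure] at this
      have h4 : Mt.eRk (insert t S) = Mt.eRk S + 1 := Mt.eRk_insert_eq_add_one ⟨by simp, htS⟩
      have h5 : Mt.eRk (insert t S) ≤ Mt.eRk ((X : Set ℂ) ∪ (fun a => exp (A' a)) '' (X : Set ℂ)) :=
        Mt.eRk_mono (Set.insert_subset htX hST)
      calc (Module.finrank ℚ X : ℕ∞)
          ≤ ((Module.finrank ℚ (X ⊓ D : Submodule ℚ ℂ) + 1 : ℕ) : ℕ∞) := by exact_mod_cast h1
        _ = (Module.finrank ℚ (X ⊓ D : Submodule ℚ ℂ) : ℕ∞) + 1 := by push_cast; rfl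
        _ ≤ (Mt.eRk S + dl ω (X ⊓ D)) + 1 := by gcongr
        _ = Mt.eRk S + 1 + dl ω (X ⊓ D) := by ring
        _ ≤ Mt.eRk ((X : Set ℂ) ∪ (fun a => exp (A' a)) '' (X : Set ℂ)) + dl ω X := by
            rw [← h4]
            exact add_le_add h5 (dl_mono inf_le_left)

end Pool.Agent.H96RS
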