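import Pool.Agent.H96RS.Seq

open Set Complex Cardinal

namespace Pool.Agent.H96RS

theorem I_mem {S : Set ℂ} : I ∈ Mt.closure S := by
  refine cl_root (n := 2) (by norm_num) ?_
  rw [I_sq]
  have := cl_rat (S := S) (-1)
  simpa using this

theorem le_trdeg {S : Set ℂ} {m : ℕ} (h : (m : ℕ∞) ≤ Mt.eRk S) :
    (m : Cardinal.{0}) ≤ Algebra.trdeg ℚ (IntermediateField.adjoin ℚ S) := by
  obtain ⟨J, hJS, hJ, hcard⟩ := Mt.le_eRk_iff.1 h
  have hJ' : AlgebraicIndependent ℚ (fun a : J => (a : ℂ)) := hJ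
  let v : J → IntermediateField.adjoin ℚ S :=
    fun a => ⟨(a : ℂ), IntermediateField.subset_adjoin ℚ S (hJS a.2)⟩
  have hv : AlgebraicIndependent ℚ v :=
    AlgebraicIndependent.of_comp (IntermediateField.adjoin ℚ S).val hJ'
  have h1 := hv.cardinalMk_le_trdeg
  have h2 : #J = m := by
    have h3 : Cardinal.toENat #J = (m : ℕ∞) := by rw [← hcard]; exact toENat_cardinalMk J
    exact Cardinal.toENat_eq_natCast.1 h3
  rw [h2] at h1
  exact h1

/-- an independent sequence that starts with a given transcendental number -/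
theorem exists_indep_seq {p : ℂ} (hp : Transcendental ℚ p) :
    ∃ x : ℕ → ℂ, Function.Injective x ∧ Mt.Indep (range x) ∧ x 0 = p := by
  have h1 : Mt.Indep {p} := by
    have : Mt.Indep (insert p ∅) := by
      rw [Matroid.insert_indep_iff]
      refine ⟨Mt.empty_indep, fun _ => ⟨by simp, fun h => ?_⟩⟩
      rw [mem_cl] at h
      apply hp
      have h2 : Algebra.adjoin ℚ (∅ : Set ℂ) = ⊥ := Algebra.adjoin_empty _ _
      rw [h2] at h
      have h3 : Algebra.IsAlgebraic ℚ (⊥ : Subalgebra ℚ ℂ) :=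
        ⟨fun a => by
          obtain ⟨q, hq⟩ := Algebra.mem_bot.1 a.2
          have : a = algebraMap ℚ (⊥ : Subalgebra ℚ ℂ) q := Subtype.ext hq.symm
          rw [this]; exact isAlgebraic_algebraMap q⟩
      exact h.restrictScalars ℚ
    simpa using this
  obtain ⟨B, hB, hpB⟩ := h1.exists_isBase_superset
  have hBt : IsTranscendenceBasis ℚ ((↑) : B → ℂ) := hB
  have hpB' : p ∈ B := hpB rfl
  have hBinf : B.Infinite := by
    intro hfin
    have : Nonempty B := ⟨⟨p, hpB'⟩⟩
    have h2 := hBt.lift_cardinalMk_eq_max_lift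
    have h3 : #B < ℵ₀ := hfin.lt_aleph0
    simp only [Cardinal.lift_id, Cardinal.mk_complex, Cardinal.mkRat] at h2
    have h4 : (Cardinal.continuum : Cardinal.{0}) ≤ ℵ₀ := by
      rw [h2]
      simp [h3.le]
    exact absurd h4 (not_le.2 Cardinal.aleph0_lt_continuum)
  have hinf : (B \ {p}).Infinite := hBinf.sdiff (Set.finite_singleton p)
  let y := hinf.natEmbedding
  refine ⟨fun n => Nat.casesOn n p fun k => (y k : ℂ), ?_, ?_, rfl⟩
  · intro m n hmn
    rcases m with _ | m <;> rcases n with _ | n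
    · rfl
    · exact absurd hmn.symm (y n).2.2
    · exact absurd hmn (y m).2.2
    · have : y m = y n := Subtype.ext hmn
      rw [y.injective this]
  · refine hB.indep.subset ?_
    rintro _ ⟨n, rfl⟩
    rcases n with _ | n
    · exact hpB'
    · exact (y n).2.1

theorem exists_bound {x : ℕ → ℂ} {J : Set ℂ} (hJ : J.Finite) (h : J ⊆ range x) :
    ∃ M, J ⊆ x '' Set.Iio M := by
  induction J, hJ using Set.Finite.induction_on with
  | empty => exact ⟨0, by simp⟩
  | @insert a s _ _ ih =>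
    obtain ⟨M, hM⟩ := ih (fun b hb => h (Or.inr hb))
    obtain ⟨k, rfl⟩ := h (Or.inl rfl)
    refine ⟨max M (k + 1), Set.insert_subset ⟨k, by simp, rfl⟩ (hM.trans ?_)⟩
    exact Set.image_mono (Set.Iio_subset_Iio (le_max_left _ _))

theorem mem_closure_iff_KN {x : ℕ → ℂ} {z : ℂ} :
    z ∈ Mt.closure (range x) ↔ ∃ M, z ∈ KN x M := by
  constructor
  · intro h
    obtain ⟨J, hJ1, hJ2, -, hJ3⟩ := Mt.exists_mem_finite_closure_of_mem_closure h
    obtain ⟨M, hM⟩ := exists_bound hJ2 hJ1
    exact ⟨M, Mt.closure_subset_closure hM hJ3⟩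
  · rintro ⟨M, hM⟩
    exact Mt.closure_subset_closure (Set.image_subset_range _ _) hM

/-- the field -/
noncomputable def KF (x : ℕ → ℂ) : IntermediateField ℚ ℂ :=
  (algebraicClosure (IntermediateField.adjoin ℚ (range x)) ℂ).restrictScalars ℚ

theorem mem_KF {x : ℕ → ℂ} {z : ℂ} : z ∈ KF x ↔ z ∈ Mt.closure (range x) := by
  rw [mem_cl, ← IntermediateField.isAlgebraic_adjoin_iff]
  exact mem_algebraicClosure_iff

theorem KF_algClosed (x : ℕ → ℂ) : IsAlgClosed (KF x) :=
  (algebraicClosure.isAlgClosure (IntermediateField.adjoin ℚ (range x)) ℂ).isAlgClosed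

theorem KF_countable (x : ℕ → ℂ) : (KF x : Set ℂ).Countable := by
  have h1 : #(IntermediateField.adjoin ℚ (range x)) ≤ ℵ₀ := by
    refine (IntermediateField.cardinalMk_adjoin_le ℚ (range x)).trans ?_
    simp only [sup_le_iff, le_refl, and_true]
    exact ⟨Cardinal.mk_le_aleph0, Cardinal.mk_le_aleph0_iff.2 (Set.countable_range x)⟩
  have h2 : #(algebraicClosure (IntermediateField.adjoin ℚ (range x)) ℂ) ≤ ℵ₀ := by
    refine (Algebra.IsAlgebraic.cardinalMk_le_max (IntermediateField.adjoin ℚ (range x))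
      (algebraicClosure (IntermediateField.adjoin ℚ (range x)) ℂ)).trans ?_
    exact max_le h1 le_rfl
  exact Cardinal.mk_le_aleph0_iff.1 h2

end Pool.Agent.H96RS
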