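import Pool.Agent.H96RS.Fin

/-! # Real transcendence bases of conjugation stable fields -/

open Set Complex Cardinal ComplexConjugate

namespace Pool.Agent.H96RS

/-- complex conjugation preserves the algebraic closure of a set of real numbers -/
theorem cl_conj {S : Set ℂ} (hS : ∀ s ∈ S, conj s = s) {a : ℂ} (ha : a ∈ Mt.closure S) :
    conj a ∈ Mt.closure S := by
  rw [mem_cl] at *
  obtain ⟨f, hf, hfa⟩ := ha
  refine ⟨f, hf, ?_⟩
  have hfix : ∀ b ∈ Algebra.adjoin ℚ S, conj b = b := by
    intro b hb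
    induction hb using Algebra.adjoin_induction with
    | mem b hb => exact hS b hb
    | algebraMap q => simp
    | add b c _ _ h1 h2 => rw [map_add, h1, h2]
    | mul b c _ _ h1 h2 => rw [map_mul, h1, h2]
  have h1 : Polynomial.aeval (conj a) f = conj (Polynomial.aeval a f) := by
    rw [Polynomial.aeval_eq_sum_range, Polynomial.aeval_eq_sum_range, map_sum]
    refine Finset.sum_congr rfl fun i _ => ?_
    rw [Algebra.smul_def, Algebra.smul_def, map_mul, map_pow]
    congr 1
    exact (hfix _ (f.coeff i).2).symm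
  rw [h1, hfa, map_zero]

theorem cl_conj_iff {S : Set ℂ} (hS : ∀ s ∈ S, conj s = s) {a : ℂ} :
    conj a ∈ Mt.closure S ↔ a ∈ Mt.closure S :=
  ⟨fun h => by simpa using cl_conj hS h, cl_conj hS⟩

theorem KN_conj {x : ℕ → ℂ} (hx : ∀ n, conj (x n) = x n) {N : ℕ} {a : ℂ} (ha : a ∈ KN x N) :
    conj a ∈ KN x N := cl_conj (by rintro _ ⟨n, -, rfl⟩; exact hx n) ha

/-- an algebraically closed field contains the closure of its subsets -/
theorem closure_subset {K : IntermediateField ℚ ℂ} [IsAlgClosed K] {S : Set ℂ} (hS : S ⊆ K) :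
    Mt.closure S ⊆ K := by
  intro a ha
  rw [mem_cl] at ha
  have hle : Algebra.adjoin ℚ S ≤ K.toSubalgebra := Algebra.adjoin_le hS
  have h1 : IsAlgebraic K a := by
    obtain ⟨f, hf, hfa⟩ := ha
    refine ⟨f.map (Subalgebra.inclusion hle).toRingHom, ?_, ?_⟩
    · rw [Ne, Polynomial.map_eq_zero_iff (Subalgebra.inclusion_injective hle)]
      exact hf
    · rw [Polynomial.aeval_def, Polynomial.eval₂_map]
      rw [Polynomial.aeval_def] at hfa
      exact hfa
  obtain ⟨b, hb⟩ := IsAlgClosed.algebraMap_bijective_of_isIntegral (k := K)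
    (K := integralClosure K ℂ) |>.2 ⟨a, isAlgebraic_iff_isIntegral.1 h1⟩
  have h2 : (algebraMap K ℂ b) = a := congrArg Subtype.val hb
  rw [← h2]
  exact b.2

/-- infinite transcendence degree -/
theorem not_subset_closure {K : IntermediateField ℚ ℂ} (hK : ℵ₀ ≤ Algebra.trdeg ℚ K) {S : Set ℂ}
    (hS : S.Finite) : ¬ (K : Set ℂ) ⊆ Mt.closure S := by
  intro hsub
  have h1 : Mt.eRk (K : Set ℂ) ≤ S.encard := by
    calc Mt.eRk (K : Set ℂ) ≤ Mt.eRk (Mt.closure S) := Mt.eRk_mono hsub
      _ = Mt.eRk S := Mt.eRk_closure_eq S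
      _ ≤ S.encard := Mt.eRk_le_encard S
  obtain ⟨m, hm⟩ : ∃ m : ℕ, S.encard = m := ⟨_, hS.encard_eq_coe_toFinset_card⟩
  have h2 : Algebra.trdeg ℚ K ≤ (m : Cardinal) := by
    refine ciSup_le' fun J => ?_
    have hJ : AlgebraicIndependent ℚ (fun a : J.1 => ((a : K) : ℂ)) := by
      exact J.2.map' (f := K.val) K.val.injective
    have hI : Mt.Indep (Subtype.val '' J.1) := by
      have := hJ.coe_range
      have e : range (fun a : J.1 => ((a : K) : ℂ)) = Subtype.val '' J.1 := by
        ext z; simp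
      rw [e] at this
      exact this
    have h3 : (Subtype.val '' J.1 : Set ℂ).encard ≤ m := by
      rw [← hm]
      refine le_trans ?_ h1
      rw [← hI.eRk_eq_encard]
      exact Mt.eRk_mono (by rintro _ ⟨a, -, rfl⟩; exact a.2)
    rw [Subtype.val_injective.encard_image] at h3
    have h4 : J.1.Finite := Set.finite_of_encard_le_coe h3
    rw [h4.encard_eq_coe_toFinset_card] at h3
    have h5 : h4.toFinset.card ≤ m := by exact_mod_cast h3
    have h6 : #J.1 = h4.toFinset.card := by
      have := h4.fintype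
      rw [Cardinal.mk_fintype, ← Set.toFinset_card]
      congr 2
      ext z; simp
    rw [h6]
    exact_mod_cast h5
  exact absurd (hK.trans h2) (not_le.2 (Cardinal.natCast_lt_aleph0))

/-- **real transcendence basis** -/
theorem exists_real_seq {K : IntermediateField ℚ ℂ} [IsAlgClosed K] (hc : (K : Set ℂ).Countable)
    (hconj : ∀ z ∈ K, conj z ∈ K) (hinf : ℵ₀ ≤ Algebra.trdeg ℚ K) {p : ℂ} (hp : Transcendental ℚ p)
    (hpr : conj p = p) (hpK : p ∈ K) :
    ∃ x : ℕ → ℂ, Function.Injective x ∧ (∀ n, conj (x n) = x n) ∧ Mt.Indep (range x) ∧ x 0 = p ∧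
      (∀ n, x n ∈ K) ∧ ∀ z, z ∈ K ↔ ∃ M, z ∈ KN x M := by
  set R : Set ℂ := {z | z ∈ K ∧ conj z = z} with hR
  have hRK : R ⊆ K := fun z hz => hz.1
  have hKR : (K : Set ℂ) ⊆ Mt.closure R := by
    intro z hz
    have hz' : z ∈ K := hz
    have h2 : ((2 : ℕ) : ℂ) ∈ K := by exact_mod_cast natCast_mem K 2
    have hI : I ∈ K := closure_subset (K := K) (S := ∅) (by simp) I_mem
    have ha : (z + conj z) / ((2 : ℕ) : ℂ) ∈ R := by
      refine ⟨K.div_mem (K.add_mem hz' (hconj z hz')) h2, ?_⟩
      rw [map_div₀, map_add, conj_conj, map_natCast, add_comm]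
    have hb : (z - conj z) / (((2 : ℕ) : ℂ) * I) ∈ R := by
      refine ⟨K.div_mem (K.sub_mem hz' (hconj z hz')) (K.mul_mem h2 hI), ?_⟩
      rw [map_div₀, map_sub, conj_conj, map_mul, map_natCast, conj_I]
      field_simp
      ring
    have hsub : R ⊆ Mt.closure R := Mt.subset_closure R (by simp)
    have e : z = (z + conj z) / ((2 : ℕ) : ℂ) + ((z - conj z) / (((2 : ℕ) : ℂ) * I)) * I := by
      push_cast
      field_simp
      ring
    rw [e]
    exact cl_add (hsub ha) (cl_mul (hsub hb) I_mem)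
  have hp1 : Mt.Indep {p} := by
    obtain ⟨y, hy, hyI, hy0⟩ := exists_indep_seq hp
    exact hyI.subset (by rintro _ rfl; exact ⟨0, hy0⟩)
  obtain ⟨B, hB, hpB⟩ := hp1.subset_isBasis_of_subset (X := R) (by rintro _ rfl; exact ⟨hpK, hpr⟩)
    (by simp)
  have hBR : B ⊆ R := hB.subset
  have hpB' : p ∈ B := hpB rfl
  have hcl : Mt.closure B = K := by
    apply subset_antisymm
    · exact closure_subset (hBR.trans hRK)
    · rw [hB.closure_eq_closure]; exact hKR
  have hBinf : B.Infinite := fun hfin => not_subset_closure hinf hfin hcl.ge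
  have hBc : B.Countable := hc.mono (hBR.trans hRK)
  have hinf' : (B \ {p}).Infinite := hBinf.sdiff (Set.finite_singleton p)
  have hc' : (B \ {p}).Countable := hBc.mono Set.sdiff_subset
  have : Countable (B \ {p} : Set ℂ) := hc'.to_subtype
  have : Infinite (B \ {p} : Set ℂ) := hinf'.to_subtype
  obtain ⟨y⟩ : Nonempty (ℕ ≃ (B \ {p} : Set ℂ)) := nonempty_equiv_of_countable
  set x : ℕ → ℂ := fun n => Nat.casesOn n p fun k => (y k : ℂ) with hxdef
  have hrange : range x = B := by
    apply subset_antisymm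
    · rintro _ ⟨n, rfl⟩
      rcases n with _ | n
      · exact hpB'
      · exact (y n).2.1
    · intro b hb
      by_cases hbp : b = p
      · exact ⟨0, hbp.symm⟩
      · exact ⟨y.symm ⟨b, hb, hbp⟩ + 1, by simp [hxdef]⟩
  refine ⟨x, ?_, ?_, ?_, rfl, ?_, ?_⟩
  · intro m n hmn
    rcases m with _ | m <;> rcases n with _ | n
    · rfl
    · exact absurd hmn.symm (y n).2.2
    · exact absurd hmn (y m).2.2
    · have : y m = y n := Subtype.ext hmn
      rw [y.injective this]
  · intro n
    exact (hBR (hrange ▸ mem_range_self n : x n ∈ B)).2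
  · rw [hrange]; exact hB.indep
  · intro n
    exact (hBR (hrange ▸ mem_range_self n : x n ∈ B)).1
  · intro z
    rw [← mem_closure_iff_KN, hrange, hcl]
    rfl

end Pool.Agent.H96RS
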