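import Pool.Agent.H96RS.Base

open Set Complex

namespace Pool.Agent.H96RS

/-- one step of the construction: `z` gets a value and becomes a value -/
theorem Good.step {x : ℕ → ℂ} (hx : Function.Injective x) (hI : Mt.Indep (range x)) {ω τ : ℂ}
    {D : Submodule ℚ ℂ} {A : ℂ →ₗ[ℚ] ℂ} {N : ℕ} (h : Good x ω τ D A N) {z : ℂ} {M : ℕ}
    (hz : z ∈ KN x M) :
    ∃ (D' : Submodule ℚ ℂ) (A' : ℂ →ₗ[ℚ] ℂ) (N' : ℕ), Good x ω τ D' A' N' ∧ D ≤ D' ∧
      (∀ a ∈ D, A' a = A a) ∧ z ∈ D' ∧ (z ≠ 0 → ∃ w ∈ D', exp (A' w) = z) := by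
  have hxne : ∀ m, x m ≠ 0 := fun m h0 => notMem_KN hx hI m (h0 ▸ KN_zero x m)
  obtain ⟨D1, A1, N1, h1, hD1, hA1, hz1⟩ : ∃ (D' : Submodule ℚ ℂ) (A' : ℂ →ₗ[ℚ] ℂ) (N' : ℕ),
      Good x ω τ D' A' N' ∧ D ≤ D' ∧ (∀ a ∈ D, A' a = A a) ∧ z ∈ D' := by
    by_cases hzD : z ∈ D
    · exact ⟨D, A, N, h, le_rfl, fun _ _ => rfl, hzD⟩
    · have hNM : N ≤ max N M := le_max_left _ _
      obtain ⟨A', h2, h3, -⟩ := h.extend (M := max N M) hNM (g := z) (b := x (max N M)) hzD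
        (KN_mono (by omega) hz) (hxne _) (mem_KN_succ x _)
        (fun d hd he => notMem_KN hx hI _ (he ▸ KN_mono hNM (h.memE d hd)))
        (Or.inr (notMem_KN hx hI _))
      exact ⟨_, A', _, h2, le_sup_left, h3,
        (le_sup_right : _ ≤ D ⊔ Submodule.span ℚ {z}) (Submodule.mem_span_singleton_self z)⟩
  by_cases hw : z ≠ 0 ∧ ∀ w ∈ D1, exp (A1 w) ≠ z
  · have hNM : N1 ≤ max N1 M := le_max_left _ _
    obtain ⟨A', h2, h3, h4⟩ := h1.extend (M := max N1 M) hNM (g := x (max N1 M)) (b := z)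
      (fun hc => notMem_KN hx hI _ (KN_mono hNM (h1.memD _ hc))) (mem_KN_succ x _) hw.1
      (KN_mono (by omega) hz) hw.2 (Or.inl (notMem_KN hx hI _))
    refine ⟨_, A', _, h2, hD1.trans le_sup_left, fun a ha => by rw [h3 a (hD1 ha), hA1 a ha],
      (le_sup_left : D1 ≤ _) hz1, fun _ => ⟨_, ?_, h4⟩⟩
    exact (le_sup_right : _ ≤ D1 ⊔ Submodule.span ℚ {x (max N1 M)})
      (Submodule.mem_span_singleton_self _)
  · refine ⟨D1, A1, N1, h1, hD1, hA1, hz1, fun hz0 => ?_⟩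
    by_contra hc
    exact hw ⟨hz0, fun w hw1 hw2 => hc ⟨w, hw1, hw2⟩⟩

theorem exists_seq {x : ℕ → ℂ} (hx : Function.Injective x) (hI : Mt.Indep (range x)) {ω τ : ℂ}
    {D0 : Submodule ℚ ℂ} {A0 : ℂ →ₗ[ℚ] ℂ} {N0 : ℕ} (h : Good x ω τ D0 A0 N0) (κ : ℕ → ℂ)
    (hκ : ∀ n, ∃ M, κ n ∈ KN x M) :
    ∃ (D : ℕ → Submodule ℚ ℂ) (A : ℕ → ℂ →ₗ[ℚ] ℂ) (N : ℕ → ℕ),
      (∀ n, Good x ω τ (D n) (A n) (N n)) ∧ (∀ n, D n ≤ D (n + 1)) ∧
      (∀ n, ∀ a ∈ D n, A (n + 1) a = A n a) ∧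
      (∀ n, κ n ∈ D (n + 1)) ∧ (∀ n, κ n ≠ 0 → ∃ w ∈ D (n + 1), exp (A (n + 1) w) = κ n) := by
  let T := {s : Submodule ℚ ℂ × (ℂ →ₗ[ℚ] ℂ) × ℕ // Good x ω τ s.1 s.2.1 s.2.2}
  have hstep : ∀ (n : ℕ) (s : T), ∃ t : T, s.1.1 ≤ t.1.1 ∧ (∀ a ∈ s.1.1, t.1.2.1 a = s.1.2.1 a) ∧
      κ n ∈ t.1.1 ∧ (κ n ≠ 0 → ∃ w ∈ t.1.1, exp (t.1.2.1 w) = κ n) := by
    intro n s
    obtain ⟨M, hM⟩ := hκ n
    obtain ⟨D', A', N', h1, h2, h3, h4, h5⟩ := s.2.step hx hI hM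
    exact ⟨⟨⟨D', A', N'⟩, h1⟩, h2, h3, h4, h5⟩
  choose F hF1 hF2 hF3 hF4 using hstep
  let s : ℕ → T := fun n => Nat.rec (⟨⟨D0, A0, N0⟩, h⟩ : T) (fun n t => F n t) n
  refine ⟨fun n => (s n).1.1, fun n => (s n).1.2.1, fun n => (s n).1.2.2, fun n => (s n).2,
    fun n => ?_, fun n => ?_, fun n => ?_, fun n => ?_⟩
  · exact hF1 n (s n)
  · exact hF2 n (s n)
  · exact hF3 n (s n)
  · exact hF4 n (s n)

theorem span_subset_closure {S : Set ℂ} {T : Set ℂ} (h : T ⊆ Mt.closure S) :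
    (Submodule.span ℚ T : Set ℂ) ⊆ Mt.closure S := by
  intro a ha
  induction ha using Submodule.span_induction with
  | mem a ha => exact h ha
  | zero => simpa using cl_rat (S := S) 0
  | add a b _ _ h1 h2 => exact cl_add h1 h2
  | smul q a _ h1 => rw [Rat.smul_def]; exact cl_mul (cl_rat _) h1

theorem exp_span_subset_closure {S : Set ℂ} {T : Set ℂ} (A : ℂ →ₗ[ℚ] ℂ)
    (h : ∀ a ∈ T, exp (A a) ∈ Mt.closure S) :
    ∀ a ∈ Submodule.span ℚ T, exp (A a) ∈ Mt.closure S := by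
  intro a ha
  induction ha using Submodule.span_induction with
  | mem a ha => exact h a ha
  | zero => simpa using cl_rat (S := S) 1
  | add a b _ _ h1 h2 => rw [map_add, exp_add]; exact cl_mul h1 h2
  | smul q a _ h1 =>
    refine cl_root q.den_pos ?_
    rw [← exp_nat_mul, map_smul, Rat.smul_def]
    have h2 : ((q.den : ℕ) : ℂ) * ((q : ℂ) * A a) = (q.num : ℂ) * A a := by
      rw [← mul_assoc]
      congr 1
      have : (q.den : ℚ) * q = q.num := by rw [mul_comm]; exact Rat.mul_den_eq_num q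
      exact_mod_cast this
    rw [h2, exp_int_mul]
    exact cl_zpow _ h1

/-- the exponential map on the union of all `KN` -/
theorem exists_exp {x : ℕ → ℂ} (hx : Function.Injective x) (hI : Mt.Indep (range x)) {ω τ : ℂ}
    (hω : ω ∈ KN x 1) (hω0 : ω ∉ KN x 0) (hτ : τ ∈ KN x 1) (hτ0 : τ ∉ KN x 0)
    {K : Set ℂ} (hK : K.Countable) (hKN : ∀ z, z ∈ K ↔ ∃ M, z ∈ KN x M) :
    ∃ E : ℂ → ℂ, (∀ z ∈ K, E z ∈ K) ∧ (∀ z ∈ K, ∀ w ∈ K, E (z + w) = E z * E w) ∧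
      (∀ y ∈ K, y ≠ 0 → ∃ z ∈ K, E z = y) ∧
      (∀ z ∈ K, E z = 1 ↔ ∃ k : ℤ, z = (k : ℚ) • ω) ∧ (∀ z ∈ K, E z ≠ 0) ∧
      E 1 = τ ∧ (∀ q : ℚ, E (q • ω) = exp ((q : ℂ) * (2 * Real.pi * I))) ∧
      ∀ (n : ℕ) (z : Fin n → ℂ), (∀ i, z i ∈ K) → LinearIndependent ℚ z →
        (n : ℕ∞) ≤ Mt.eRk (range z ∪ range (fun i => E (z i))) +
          dl ω (Submodule.span ℚ (range z)) := by
  have hKne : K.Nonempty := ⟨1, (hKN 1).2 ⟨0, KN_one x 0⟩⟩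
  obtain ⟨κ, hκ⟩ := hK.exists_eq_range hKne
  obtain ⟨D0, A0, h0⟩ := base_good hω hω0 hτ hτ0
  obtain ⟨D, A, N, hG, hD, hA, hκD, hκE⟩ := exists_seq hx hI h0 κ
    (fun n => (hKN _).1 (by rw [hκ]; exact mem_range_self n))
  have hDm : Monotone D := monotone_nat_of_le_succ hD
  have hAm : ∀ m n, m ≤ n → ∀ a ∈ D m, A n a = A m a := by
    intro m n hmn
    induction n, hmn using Nat.le_induction with
    | base => intro a _; rfl
    | succ n hmn ih => intro a ha; rw [hA n a (hDm hmn ha), ih a ha]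
  have hKD : ∀ z ∈ K, ∃ n, z ∈ D n := by
    intro z hz
    rw [hκ] at hz
    obtain ⟨n, rfl⟩ := hz
    exact ⟨n + 1, hκD n⟩
  have hDK : ∀ n, ∀ z ∈ D n, z ∈ K := fun n z hz => (hKN z).2 ⟨_, (hG n).memD z hz⟩
  classical
  let E : ℂ → ℂ := fun z => if h : ∃ n, z ∈ D n then exp (A (Nat.find h) z) else 1
  have hE : ∀ n, ∀ z ∈ D n, E z = exp (A n z) := by
    intro n z hz
    have h : ∃ n, z ∈ D n := ⟨n, hz⟩
    have h1 : E z = exp (A (Nat.find h) z) := dif_pos h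
    rw [h1, hAm (Nat.find h) n (Nat.find_min' h hz) z (Nat.find_spec h)]
  refine ⟨E, ?_, ?_, ?_, ?_, ?_, ?_, ?_, ?_⟩
  · intro z hz
    obtain ⟨n, hn⟩ := hKD z hz
    rw [hE n z hn]
    exact (hKN _).2 ⟨_, (hG n).memE z hn⟩
  · intro z hz w hw
    obtain ⟨n, hn⟩ := hKD z hz
    obtain ⟨m, hm⟩ := hKD w hw
    have h1 : z ∈ D (max n m) := hDm (le_max_left _ _) hn
    have h2 : w ∈ D (max n m) := hDm (le_max_right _ _) hm
    rw [hE _ _ h1, hE _ _ h2, hE _ _ ((D _).add_mem h1 h2), map_add, exp_add]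
  · intro y hy hy0
    rw [hκ] at hy
    obtain ⟨n, rfl⟩ := hy
    obtain ⟨w, hw, h1⟩ := hκE n hy0
    exact ⟨w, hDK _ w hw, by rw [hE _ w hw, h1]⟩
  · intro z hz
    obtain ⟨n, hn⟩ := hKD z hz
    rw [hE n z hn]
    constructor
    · exact (hG n).ker z hn
    · rintro ⟨k, rfl⟩
      rw [map_smul, (hG n).Aom, Rat.smul_def, Rat.cast_intCast, exp_int_mul_two_pi_mul_I]
  · intro z hz
    obtain ⟨n, hn⟩ := hKD z hz
    rw [hE n z hn]
    exact exp_ne_zero _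
  · rw [hE 0 1 (hG 0).one_mem, (hG 0).A1]
  · intro q
    rw [hE 0 _ ((D 0).smul_mem q (hG 0).om_mem), map_smul, (hG 0).Aom, Rat.smul_def]
  · intro n z hz hli
    obtain ⟨m, hm⟩ : ∃ m, ∀ i, z i ∈ D m := by
      choose f hf using fun i => hKD (z i) (hz i)
      refine ⟨Finset.univ.sup f, fun i => hDm (Finset.le_sup (Finset.mem_univ i)) (hf i)⟩
    have hX : Submodule.span ℚ (range z) ≤ D m := by
      rw [Submodule.span_le]; rintro _ ⟨i, rfl⟩; exact hm i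
    have hfin : FiniteDimensional ℚ (Submodule.span ℚ (range z)) :=
      FiniteDimensional.span_of_finite ℚ (Set.finite_range z)
    have h1 := (hG m).sch _ hX hfin
    have h2 : Module.finrank ℚ (Submodule.span ℚ (range z)) = n := by
      rw [finrank_span_eq_card hli, Fintype.card_fin]
    rw [h2] at h1
    refine h1.trans ?_
    gcongr
    rw [← Mt.eRk_closure_eq (range z ∪ range fun i => E (z i))]
    apply Mt.eRk_mono
    have hsub : range z ∪ (range fun i => E (z i)) ⊆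
        Mt.closure (range z ∪ range fun i => E (z i)) := Mt.subset_closure _ (by simp)
    rintro a (ha | ⟨b, hb, rfl⟩)
    · exact span_subset_closure (fun c hc => hsub (Or.inl hc)) ha
    · refine exp_span_subset_closure (A m) ?_ b hb
      rintro _ ⟨i, rfl⟩
      rw [← hE m _ (hm i)]
      exact hsub (Or.inr ⟨i, rfl⟩)

end Pool.Agent.H96RS
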